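import Pool.Agent.V1137.Cogr.Defs

/-!
# Recursive blow-up graphons
-/

open MeasureTheory unitInterval

namespace Pool.Agent.V1137.Cogr

variable {a b : ℕ} {n N : ℕ}

/-- The product of uniform measures. -/
noncomputable def muX (a b : ℕ) [NeZero a] [NeZero b] : Measure (ℕ → V a b) :=
  Measure.infinitePi (fun _ : ℕ => (PMF.uniformOfFintype (V a b)).toMeasure)

instance (a b : ℕ) [NeZero a] [NeZero b] : IsProbabilityMeasure (muX a b) := by
  unfold muX; infer_instance

lemma muX_word [NeZero a] [NeZero b] (t : ℕ) (w : Wd a b t) :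
    muX a b {x | word t x = w} = (((a * b : ℕ) : ENNReal)⁻¹) ^ t := by
  classical
  have hset : {x : ℕ → V a b | word t x = w} =
      Set.pi (Finset.range t : Set ℕ) (fun i => {if h : i < t then w ⟨i, h⟩ else default}) := by
    ext x
    simp only [Set.mem_ofPred_eq, Set.mem_pi, Finset.coe_range, Set.mem_Iio, Set.mem_singleton_iff]
    constructor
    · intro h i hi
      rw [dif_pos hi, ← h]; rfl
    · intro h
      funext i
      have := h i i.2
      rw [dif_pos i.2] at this
      exact this
  rw [hset, muX, Measure.infinitePi_pi _ (fun i _ => MeasurableSet.singleton _)]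
  have : ∀ i ∈ Finset.range t, (PMF.uniformOfFintype (V a b)).toMeasure
      {if h : i < t then w ⟨i, h⟩ else default} = ((a * b : ℕ) : ENNReal)⁻¹ := by
    intro i _
    rw [PMF.toMeasure_apply_singleton _ _ (MeasurableSet.singleton _),
      PMF.uniformOfFintype_apply]
    simp
  rw [Finset.prod_congr rfl this, Finset.prod_const, Finset.card_range]

/-- A coding of `[0,1]` by sequences of letters. -/
def IsCoding (g : I → ℕ → V a b) : Prop :=
  Measurable g ∧ ∀ (t : ℕ) (w : Wd a b t), volume {y : I | word t (g y) = w} =
    (((a * b : ℕ) : ENNReal)⁻¹) ^ t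

lemma measurable_word (t : ℕ) : Measurable (word t : (ℕ → V a b) → Wd a b t) :=
  measurable_pi_lambda _ fun i => measurable_pi_apply (i : ℕ)

lemma exists_coding (a b : ℕ) [NeZero a] [NeZero b] : ∃ g : I → ℕ → V a b, IsCoding g := by
  obtain ⟨g, hg, hmap⟩ := Measure.exists_measurable_map_eq (muX a b)
  refine ⟨g, hg, fun t w => ?_⟩
  rw [← muX_word t w, ← hmap, Measure.map_apply hg]
  · rfl
  · exact measurable_word t (MeasurableSet.singleton w)

lemma measurableSet_adjX {g : I → ℕ → V a b} (hg : Measurable g) :
    MeasurableSet {p : I × I | AdjX (g p.1) (g p.2)} := by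
  have h1 : ∀ i : ℕ, Measurable (fun p : I × I => (g p.1 i, g p.2 i)) := fun i =>
    ((measurable_pi_apply i).comp (hg.comp measurable_fst)).prodMk
      ((measurable_pi_apply i).comp (hg.comp measurable_snd))
  have h2 : ∀ i : ℕ, MeasurableSet {p : I × I | g p.1 i = g p.2 i} := fun i =>
    (h1 i) (Set.to_countable {q : V a b × V a b | q.1 = q.2}).measurableSet
  have h3 : ∀ i : ℕ, MeasurableSet {p : I × I | (g p.1 i).1 ≠ (g p.2 i).1} := fun i =>
    (h1 i) (Set.to_countable {q : V a b × V a b | q.1.1 ≠ q.2.1}).measurableSet
  have : {p : I × I | AdjX (g p.1) (g p.2)} =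
      ⋃ i : ℕ, ((⋂ j : ℕ, ⋂ _ : j < i, {p : I × I | g p.1 j = g p.2 j}) ∩
        {p : I × I | (g p.1 i).1 ≠ (g p.2 i).1}) := by
    ext p
    simp [AdjX]
  rw [this]
  exact MeasurableSet.iUnion fun i =>
    (MeasurableSet.iInter fun j => MeasurableSet.iInter fun _ => h2 j).inter (h3 i)

open Classical in
/-- The recursive blow-up graphon. -/
noncomputable def blow (g : I → ℕ → V a b) (hg : Measurable g) : Graphon where
  toFun x y := if AdjX (g x) (g y) then 1 else 0
  meas := by
    have : (Function.uncurry fun x y => if AdjX (g x) (g y) then (1 : ℝ) else 0) =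
        Set.indicator {p : I × I | AdjX (g p.1) (g p.2)} (fun _ => (1 : ℝ)) := by
      funext p
      simp only [Function.uncurry, Set.indicator, Set.mem_ofPred_eq]
    rw [this]
    exact measurable_const.indicator (measurableSet_adjX hg)
  symm x y := by simp only [adjX_comm (g x) (g y)]
  nonneg x y := by split_ifs <;> norm_num
  le_one x y := by split_ifs <;> norm_num

/-- The pattern set. -/
def Pat (g : I → ℕ → V a b) (H : SimpleGraph (Fin n)) : Set (Fin n → I) :=
  {x | ∀ i j, i ≠ j → (H.Adj i j ↔ AdjX (g (x i)) (g (x j)))}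

lemma mem_pat_iff_lt {g : I → ℕ → V a b} {H : SimpleGraph (Fin n)} {x : Fin n → I} :
    x ∈ Pat g H ↔ ∀ i j, i < j → (H.Adj i j ↔ AdjX (g (x i)) (g (x j))) := by
  constructor
  · intro h i j hij
    exact h i j (ne_of_lt hij)
  · intro h i j hij
    rcases lt_or_gt_of_ne hij with hlt | hlt
    · exact h i j hlt
    · rw [H.adj_comm, adjX_comm]; exact h j i hlt

open Classical in
lemma ind_blow {g : I → ℕ → V a b} (hg : Measurable g) (H : SimpleGraph (Fin n)) (x : Fin n → I) :
    ind (blow g hg) H x = if x ∈ Pat g H then 1 else 0 := by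
  unfold ind
  split_ifs with h
  · refine Finset.prod_eq_one fun p hp => ?_
    have hlt : p.1 < p.2 := by simpa using hp
    have := mem_pat_iff_lt.1 h p.1 p.2 hlt
    simp only [blow]
    by_cases hadj : H.Adj p.1 p.2
    · rw [if_pos hadj, if_pos (this.1 hadj)]
    · rw [if_neg hadj, if_neg (fun h' => hadj (this.2 h'))]; norm_num
  · rw [mem_pat_iff_lt] at h
    push Not at h
    obtain ⟨i, j, hij, h⟩ := h
    refine Finset.prod_eq_zero (i := (i, j)) (by simp [hij]) ?_
    simp only [blow]
    rcases h with ⟨h1, h2⟩ | ⟨h1, h2⟩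
    · rw [if_pos h1, if_neg h2]
    · rw [if_neg h1, if_pos h2]; norm_num

lemma measurableSet_pat {g : I → ℕ → V a b} (hg : Measurable g) (H : SimpleGraph (Fin n)) :
    MeasurableSet (Pat g H) := by
  classical
  have : Pat g H = (fun x => ind (blow g hg) H x) ⁻¹' {1} := by
    ext x
    simp only [Set.mem_preimage, Set.mem_singleton_iff, ind_blow hg H x]
    split_ifs with h
    · simp [h]
    · simp [h]
  rw [this]
  exact measurable_ind _ _ (MeasurableSet.singleton 1)

lemma dens_blow {g : I → ℕ → V a b} (hg : Measurable g) (H : SimpleGraph (Fin n)) :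
    dens (blow g hg) n H = volume.real (Pat g H) := by
  classical
  unfold dens
  have : (fun x : Fin n → I => ind (blow g hg) H x) = (Pat g H).indicator (fun _ => (1 : ℝ)) := by
    funext x
    rw [ind_blow hg H x]
    simp [Set.indicator]
  rw [this, integral_indicator (measurableSet_pat hg H)]
  simp

/-- The words of a tuple of points. -/
def wds (g : I → ℕ → V a b) (t : ℕ) (x : Fin n → I) : Fin n → Wd a b t := fun i => word t (g (x i))

lemma vol_wds_eq {g : I → ℕ → V a b} (hg : IsCoding g) (t : ℕ) (w : Fin n → Wd a b t) :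
    volume {x : Fin n → I | wds g t x = w} = ((((a * b : ℕ) : ENNReal)⁻¹) ^ t) ^ n := by
  have : {x : Fin n → I | wds g t x = w} =
      Set.pi Set.univ (fun i => {y : I | word t (g y) = w i}) := by
    ext x
    simp only [Set.mem_ofPred_eq, Set.mem_univ_pi]
    constructor
    · intro h i; rw [← h]; rfl
    · intro h; funext i; exact h i
  rw [this, volume_pi, Measure.pi_pi]
  simp only [hg.2, Finset.prod_const, Finset.card_univ, Fintype.card_fin]

lemma measurableSet_wds {g : I → ℕ → V a b} (hg : IsCoding g) (t : ℕ) (w : Fin n → Wd a b t) :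
    MeasurableSet {x : Fin n → I | wds g t x = w} := by
  have hm : Measurable (fun x : Fin n → I => wds g t x) :=
    measurable_pi_lambda _ fun i => (measurable_word t).comp (hg.1.comp (measurable_pi_apply i))
  exact hm (MeasurableSet.singleton w)

lemma vol_wds {g : I → ℕ → V a b} (hg : IsCoding g) (t : ℕ) (T : Finset (Fin n → Wd a b t)) :
    volume.real {x : Fin n → I | wds g t x ∈ T} =
      (T.card : ℝ) / ((((a * b : ℕ) : ℝ)) ^ t) ^ n := by
  have h1 : {x : Fin n → I | wds g t x ∈ T} = ⋃ w ∈ T, {x : Fin n → I | wds g t x = w} := by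
    ext x; simp
  have h2 : volume {x : Fin n → I | wds g t x ∈ T} =
      (T.card : ENNReal) * ((((a * b : ℕ) : ENNReal)⁻¹) ^ t) ^ n := by
    rw [h1, measure_biUnion_finset]
    · simp only [vol_wds_eq hg, Finset.sum_const, nsmul_eq_mul]
    · intro w _ w' _ hne
      refine Set.disjoint_left.2 fun x hx hx' => hne ?_
      exact hx.symm.trans hx'
    · intro w _; exact measurableSet_wds hg t w
  rw [Measure.real, h2]
  rw [ENNReal.toReal_mul, ENNReal.toReal_pow, ENNReal.toReal_pow, ENNReal.toReal_inv]
  simp only [ENNReal.toReal_natCast]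
  rw [inv_pow, inv_pow, div_eq_mul_inv]

/-! ### Bounds for cliques and independent sets -/

lemma pos_card_V [NeZero a] [NeZero b] : (0 : ℝ) < ((a * b : ℕ) : ℝ) := by
  have : 0 < a * b := Nat.mul_pos (Nat.pos_of_ne_zero (NeZero.ne a)) (Nat.pos_of_ne_zero (NeZero.ne b))
  exact_mod_cast this

lemma dens_top_le [NeZero a] [NeZero b] {g : I → ℕ → V a b} (hg : IsCoding g) (n t : ℕ) :
    dens (blow g hg.1) n ⊤ ≤
      ((((b ^ t) ^ (a ^ t) * (a ^ t) ^ n : ℕ)) : ℝ) / ((((a * b : ℕ) : ℝ)) ^ t) ^ n := by
  classical
  set T : Finset (Fin n → Wd a b t) :=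
    Finset.univ.filter (fun w => ∀ i j, pw (w i) = pw (w j) → w i = w j) with hT
  have hsub : Pat g (⊤ : SimpleGraph (Fin n)) ⊆ {x | wds g t x ∈ T} := by
    intro x hx
    simp only [Set.mem_ofPred_eq, hT, Finset.mem_filter, Finset.mem_univ, true_and]
    intro i j hpw
    by_contra hne
    have hij : i ≠ j := by rintro rfl; exact hne rfl
    have h1 : AdjX (g (x i)) (g (x j)) := (hx i j hij).1 hij
    rw [adjX_iff_word (t := t) hne] at h1
    exact pw_ne_of_adj h1 hpw
  rw [dens_blow]
  refine (measureReal_mono hsub).trans ?_
  rw [vol_wds hg]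
  have hpos := pos_card_V (a := a) (b := b)
  refine div_le_div_of_nonneg_right ?_ (by positivity)
  have hcard : T.card ≤ (b ^ t) ^ (a ^ t) * (a ^ t) ^ n := by
    set ι : (Fin n → Wd a b t) → (Fin n → (Fin t → Fin a) × (Fin t → Fin b)) :=
      fun w i => (pw (w i), lw (w i)) with hι
    have hinj : Function.Injective ι := by
      intro w w' h
      funext i
      have := congrFun h i
      simp only [hι, Prod.mk.injEq] at this
      exact pw_lw_inj this.1 this.2
    have h1 := card_tuples_le (A := Fin t → Fin a) (B := Fin t → Fin b) n (T.image ι) (by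
      intro w hw i j hij
      rw [Finset.mem_image] at hw
      obtain ⟨w0, hw0, rfl⟩ := hw
      simp only [hT, Finset.mem_filter, Finset.mem_univ, true_and] at hw0
      have := hw0 i j hij
      simp only [hι, this])
    rw [Finset.card_image_of_injective _ hinj] at h1
    simpa using h1
  exact_mod_cast hcard

lemma dens_bot_le [NeZero a] [NeZero b] {g : I → ℕ → V a b} (hg : IsCoding g) (n t : ℕ) :
    dens (blow g hg.1) n ⊥ ≤
      ((((a ^ t) ^ (b ^ t) * (b ^ t) ^ n : ℕ)) : ℝ) / ((((a * b : ℕ) : ℝ)) ^ t) ^ n := by
  classical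
  set T : Finset (Fin n → Wd a b t) :=
    Finset.univ.filter (fun w => ∀ i j, lw (w i) = lw (w j) → w i = w j) with hT
  have hsub : Pat g (⊥ : SimpleGraph (Fin n)) ⊆ {x | wds g t x ∈ T} := by
    intro x hx
    simp only [Set.mem_ofPred_eq, hT, Finset.mem_filter, Finset.mem_univ, true_and]
    intro i j hlw
    by_contra hne
    have hij : i ≠ j := by rintro rfl; exact hne rfl
    have h1 : ¬ AdjX (g (x i)) (g (x j)) := fun h => ((hx i j hij).2 h).elim
    exact h1 (adjX_of_word (adjW_of_lw_eq hne hlw))
  rw [dens_blow]
  refine (measureReal_mono hsub).trans ?_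
  rw [vol_wds hg]
  have hpos := pos_card_V (a := a) (b := b)
  refine div_le_div_of_nonneg_right ?_ (by positivity)
  have hcard : T.card ≤ (a ^ t) ^ (b ^ t) * (b ^ t) ^ n := by
    set ι : (Fin n → Wd a b t) → (Fin n → (Fin t → Fin b) × (Fin t → Fin a)) :=
      fun w i => (lw (w i), pw (w i)) with hι
    have hinj : Function.Injective ι := by
      intro w w' h
      funext i
      have := congrFun h i
      simp only [hι, Prod.mk.injEq] at this
      exact pw_lw_inj this.2 this.1
    have h1 := card_tuples_le (A := Fin t → Fin b) (B := Fin t → Fin a) n (T.image ι) (by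
      intro w hw i j hij
      rw [Finset.mem_image] at hw
      obtain ⟨w0, hw0, rfl⟩ := hw
      simp only [hT, Finset.mem_filter, Finset.mem_univ, true_and] at hw0
      have := hw0 i j hij
      simp only [hι, this])
    rw [Finset.card_image_of_injective _ hinj] at h1
    simpa using h1
  exact_mod_cast hcard

lemma dens_top_ge [NeZero a] [NeZero b] {g : I → ℕ → V a b} (hg : IsCoding g) (d : ℕ) :
    ((a ^ d).factorial : ℝ) / ((((a * b : ℕ) : ℝ)) ^ d) ^ (a ^ d) ≤ dens (blow g hg.1) (a ^ d) ⊤ := by
  classical
  set n := a ^ d with hn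
  have hcardE : Fintype.card (Fin n) = Fintype.card (Fin d → Fin a) := by simp [hn]
  let E : Fin n ≃ (Fin d → Fin a) := Fintype.equivOfCardEq hcardE
  let F : Equiv.Perm (Fin n) → (Fin n → Wd a b d) := fun s1 i k => (E (s1 i) k, 0)
  have hF : Function.Injective F := by
    intro s1 s2 h
    ext i
    have : E (s1 i) = E (s2 i) := by
      funext k
      have := congrFun (congrFun h i) k
      simp only [F, Prod.mk.injEq, and_true] at this
      exact this
    rw [E.injective this]
  set T : Finset (Fin n → Wd a b d) := Finset.univ.image F with hT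
  have hTc : T.card = n.factorial := by
    rw [hT, Finset.card_image_of_injective _ hF, Finset.card_univ, Fintype.card_perm,
      Fintype.card_fin]
  have hsub : {x | wds g d x ∈ T} ⊆ Pat g (⊤ : SimpleGraph (Fin n)) := by
    intro x hx
    simp only [Set.mem_ofPred_eq, hT, Finset.mem_image, Finset.mem_univ, true_and] at hx
    obtain ⟨s1, hs1⟩ := hx
    intro i j hij
    refine ⟨fun _ => ?_, fun _ => hij⟩
    have hi : word d (g (x i)) = F s1 i := (congrFun hs1 i).symm
    have hj : word d (g (x j)) = F s1 j := (congrFun hs1 j).symm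
    have hne : F s1 i ≠ F s1 j := by
      intro h
      apply hij
      apply s1.injective
      apply E.injective
      funext k
      have := congrFun h k
      simp only [F, Prod.mk.injEq, and_true] at this
      exact this
    refine adjX_of_word (t := d) ?_
    rw [hi, hj]
    exact adjW_of_lw_eq hne rfl
  rw [dens_blow]
  refine le_trans (le_of_eq ?_) (measureReal_mono hsub)
  rw [vol_wds hg, hTc]

lemma dens_bot_ge [NeZero a] [NeZero b] {g : I → ℕ → V a b} (hg : IsCoding g) (d : ℕ) :
    ((b ^ d).factorial : ℝ) / ((((a * b : ℕ) : ℝ)) ^ d) ^ (b ^ d) ≤ dens (blow g hg.1) (b ^ d) ⊥ := by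
  classical
  set n := b ^ d with hn
  have hcardE : Fintype.card (Fin n) = Fintype.card (Fin d → Fin b) := by simp [hn]
  let E : Fin n ≃ (Fin d → Fin b) := Fintype.equivOfCardEq hcardE
  let F : Equiv.Perm (Fin n) → (Fin n → Wd a b d) := fun s1 i k => (0, E (s1 i) k)
  have hF : Function.Injective F := by
    intro s1 s2 h
    ext i
    have : E (s1 i) = E (s2 i) := by
      funext k
      have := congrFun (congrFun h i) k
      simp only [F, Prod.mk.injEq, true_and] at this
      exact this
    rw [E.injective this]
  set T : Finset (Fin n → Wd a b d) := Finset.univ.image F with hT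
  have hTc : T.card = n.factorial := by
    rw [hT, Finset.card_image_of_injective _ hF, Finset.card_univ, Fintype.card_perm,
      Fintype.card_fin]
  have hsub : {x | wds g d x ∈ T} ⊆ Pat g (⊥ : SimpleGraph (Fin n)) := by
    intro x hx
    simp only [Set.mem_ofPred_eq, hT, Finset.mem_image, Finset.mem_univ, true_and] at hx
    obtain ⟨s1, hs1⟩ := hx
    intro i j hij
    refine ⟨fun h => h.elim, fun h => ?_⟩
    exfalso
    have hi : word d (g (x i)) = F s1 i := (congrFun hs1 i).symm
    have hj : word d (g (x j)) = F s1 j := (congrFun hs1 j).symm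
    have hne : F s1 i ≠ F s1 j := by
      intro h
      apply hij
      apply s1.injective
      apply E.injective
      funext k
      have := congrFun h k
      simp only [F, Prod.mk.injEq, true_and] at this
      exact this
    rw [adjX_iff_word (t := d) (by rw [hi, hj]; exact hne), hi, hj] at h
    exact not_adjW_of_pw_eq (show pw (F s1 i) = pw (F s1 j) from rfl) h
  rw [dens_blow]
  refine le_trans (le_of_eq ?_) (measureReal_mono hsub)
  rw [vol_wds hg, hTc]

/-! ### Positive density implies cograph -/

lemma cog_of_pat {y : Fin n → (ℕ → V a b)} {H : SimpleGraph (Fin n)}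
    (h : ∀ i j, i ≠ j → (H.Adj i j ↔ AdjX (y i) (y j))) :
    ∀ (m : ℕ) (A : Finset (Fin n)), A.card ≤ m → Cog H (A : Set (Fin n)) := by
  classical
  intro m
  induction m with
  | zero =>
    intro A hA
    have : A = ∅ := Finset.card_eq_zero.1 (Nat.le_zero.1 hA)
    subst this
    simpa using Cog.empty
  | succ m ih =>
    intro A hA
    rcases A.eq_empty_or_nonempty with rfl | ⟨i0, hi0⟩
    · simpa using Cog.empty
    by_cases hall : ∀ i ∈ A, y i = y i0
    · -- all sequences equal: no edges
      have h1 : Cog H ((A.erase i0 : Finset (Fin n)) : Set (Fin n)) := by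
        apply ih
        rw [Finset.card_erase_of_mem hi0]; omega
      have h2 := Cog.union (Cog.single (G := H) i0) h1 (by
        intro u hu v hv
        simp only [Set.mem_singleton_iff] at hu
        subst hu
        simp only [Finset.coe_erase, Set.mem_sdiff, Finset.mem_coe, Set.mem_singleton_iff] at hv
        refine ⟨Ne.symm hv.2, ?_⟩
        rw [h u v (Ne.symm hv.2), hall v hv.1]
        exact adjX_irrefl _)
      have h3 : ({i0} ∪ ((A.erase i0 : Finset (Fin n)) : Set (Fin n))) = (A : Set (Fin n)) := by
        ext i
        simp only [Set.mem_union, Set.mem_singleton_iff, Finset.mem_coe, Finset.mem_erase]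
        constructor
        · rintro (rfl | h)
          · exact hi0
          · exact h.2
        · intro hi
          by_cases e : i = i0
          · exact Or.inl e
          · exact Or.inr ⟨e, hi⟩
      rw [h3] at h2
      exact h2
    · -- first index where they differ
      push Not at hall
      obtain ⟨i1, hi1, hne1⟩ := hall
      have hex : ∃ k, ∃ i ∈ A, ∃ j ∈ A, y i k ≠ y j k := by
        obtain ⟨k, hk⟩ := Function.ne_iff.1 hne1
        exact ⟨k, i1, hi1, i0, hi0, hk⟩
      set k := Nat.find hex with hk
      obtain ⟨p, hp, r, hr, hpr⟩ := Nat.find_spec hex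
      have hmin : ∀ l < k, ∀ i ∈ A, ∀ j ∈ A, y i l = y j l := by
        intro l hl i hi j hj
        by_contra hne
        exact Nat.find_min hex hl ⟨i, hi, j, hj, hne⟩
      have split : ∀ (c : Fin n → Prop), c p → ¬ c r →
          (∀ A1 : Finset (Fin n), A1 = A.filter c → Cog H (A1 : Set (Fin n))) ∧
          (∀ A2 : Finset (Fin n), A2 = A.filter (fun i => ¬ c i) → Cog H (A2 : Set (Fin n))) := by
        intro c hcp hcr
        have e1 : (A.filter c).card + (A.filter (fun i => ¬ c i)).card = A.card :=
          Finset.card_filter_add_card_filter_not c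
        have e2 : 0 < (A.filter c).card := Finset.card_pos.2 ⟨p, by simp [hp, hcp]⟩
        have e3 : 0 < (A.filter (fun i => ¬ c i)).card := Finset.card_pos.2 ⟨r, by simp [hr, hcr]⟩
        constructor
        · rintro A1 rfl; apply ih; omega
        · rintro A2 rfl; apply ih; omega
      have cover : ∀ (c : Fin n → Prop),
          (((A.filter c : Finset (Fin n)) : Set (Fin n)) ∪
            ((A.filter (fun i => ¬ c i) : Finset (Fin n)) : Set (Fin n))) = (A : Set (Fin n)) := by
        intro c
        ext i
        simp only [Set.mem_union, Finset.mem_coe, Finset.mem_filter]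
        tauto
      by_cases hparts : (y p k).1 = (y r k).1
      · by_cases hallparts : ∀ i ∈ A, (y i k).1 = (y p k).1
        · -- same parts, different letters: disjoint union
          obtain ⟨hc1, hc2⟩ := split (fun i => y i k = y p k) rfl (fun e => hpr e.symm)
          have h2 := Cog.union (hc1 _ rfl) (hc2 _ rfl) (by
            intro u hu v hv
            simp only [Finset.coe_filter, Set.mem_ofPred_eq] at hu hv
            have huv : y u k ≠ y v k := by rw [hu.2]; exact fun e => hv.2 e.symm
            have hne : u ≠ v := by rintro rfl; exact huv rfl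
            refine ⟨hne, ?_⟩
            rw [h u v hne]
            rintro ⟨i, h1, h2⟩
            rcases lt_trichotomy i k with hlt | heq | hgt
            · exact h2 (congrArg Prod.fst (hmin i hlt u hu.1 v hv.1))
            · rw [heq] at h2
              exact h2 ((hallparts u hu.1).trans (hallparts v hv.1).symm)
            · exact huv (h1 k hgt))
          convert h2 using 1
          ext i
          simp only [Set.mem_union, Finset.mem_coe, Finset.mem_filter]
          tauto
        · push Not at hallparts
          obtain ⟨s, hs, hsne⟩ := hallparts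
          -- split by part of `p`; `s` is on the other side
          have e1 : (A.filter (fun i => (y i k).1 = (y p k).1)).card +
              (A.filter (fun i => ¬ (y i k).1 = (y p k).1)).card = A.card :=
            Finset.card_filter_add_card_filter_not _
          have e2 : 0 < (A.filter (fun i => (y i k).1 = (y p k).1)).card :=
            Finset.card_pos.2 ⟨p, by simp [hp]⟩
          have e3 : 0 < (A.filter (fun i => ¬ (y i k).1 = (y p k).1)).card :=
            Finset.card_pos.2 ⟨s, by simp [hs, hsne]⟩
          have h2 := Cog.join (ih (A.filter (fun i => (y i k).1 = (y p k).1)) (by omega))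
            (ih (A.filter (fun i => ¬ (y i k).1 = (y p k).1)) (by omega)) (by
            intro u hu v hv
            simp only [Finset.coe_filter, Set.mem_ofPred_eq] at hu hv
            have huv : (y u k).1 ≠ (y v k).1 := by rw [hu.2]; exact fun e => hv.2 e.symm
            have hne : u ≠ v := by rintro rfl; exact huv rfl
            rw [h u v hne]
            exact ⟨k, fun j hj => hmin j hj u hu.1 v hv.1, huv⟩)
          convert h2 using 1
          ext i
          simp only [Set.mem_union, Finset.mem_coe, Finset.mem_filter]
          tauto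
      · obtain ⟨hc1, hc2⟩ := split (fun i => (y i k).1 = (y p k).1) rfl
          (fun e => hparts e.symm)
        have h2 := Cog.join (hc1 _ rfl) (hc2 _ rfl) (by
          intro u hu v hv
          simp only [Finset.coe_filter, Set.mem_ofPred_eq] at hu hv
          have huv : (y u k).1 ≠ (y v k).1 := by rw [hu.2]; exact fun e => hv.2 e.symm
          have hne : u ≠ v := by rintro rfl; exact huv rfl
          rw [h u v hne]
          exact ⟨k, fun j hj => hmin j hj u hu.1 v hv.1, huv⟩)
        convert h2 using 1
        ext i
        simp only [Set.mem_union, Finset.mem_coe, Finset.mem_filter]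
        tauto

lemma cog_of_dens_pos {g : I → ℕ → V a b} (hg : Measurable g) {H : SimpleGraph (Fin n)}
    (h : 0 < dens (blow g hg) n H) : Cog H Set.univ := by
  rw [dens_blow] at h
  have hne : (Pat g H).Nonempty := by
    by_contra hcon
    rw [Set.not_nonempty_iff_eq_empty] at hcon
    rw [hcon] at h
    simp at h
  obtain ⟨x, hx⟩ := hne
  have := cog_of_pat (y := fun i => g (x i)) (H := H) hx (Finset.univ : Finset (Fin n)).card
    Finset.univ le_rfl
  simpa using this

end Pool.Agent.V1137.Cogr
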