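import Pool.Agent.V1137.Cogr.Words

/-!
# Graphons, limits, sub-objects
-/

open MeasureTheory unitInterval

namespace Pool.Agent.V1137.Cogr

/-- A graphon `W : [0,1]² → [0,1]`, symmetric and measurable. -/
structure Graphon where
  toFun : I → I → ℝ
  meas : Measurable (Function.uncurry toFun)
  symm : ∀ x y, toFun x y = toFun y x
  nonneg : ∀ x y, 0 ≤ toFun x y
  le_one : ∀ x y, toFun x y ≤ 1

open Classical in
/-- `∏_{i<j} (W(x_i,x_j) if ij ∈ E(H), 1 - W(x_i,x_j) otherwise)`. -/
noncomputable def ind (W : Graphon) {n : ℕ} (H : SimpleGraph (Fin n)) (x : Fin n → I) : ℝ :=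
  ∏ p ∈ (Finset.univ : Finset (Fin n × Fin n)).filter (fun p => p.1 < p.2),
    if H.Adj p.1 p.2 then W.toFun (x p.1) (x p.2) else 1 - W.toFun (x p.1) (x p.2)

/-- Functionals assigning a number to every finite graph. -/
abbrev Functional : Type := (n : ℕ) → SimpleGraph (Fin n) → ℝ

/-- The (labelled) induced densities of a graphon. -/
noncomputable def dens (W : Graphon) : Functional :=
  fun n H => ∫ x : Fin n → I, ind W H x

/-- The (labelled) induced densities of `W|_f`, the graphon `W` on the probability space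
`([0,1], f dλ / ∫ f)`. -/
noncomputable def subDens (W : Graphon) (f : I → ℝ) : Functional :=
  fun n H => (∫ x : Fin n → I, (∏ i, f (x i)) * ind W H x) / (∫ t : I, f t) ^ n

/-- A limit: a graphon up to weak isomorphism, i.e. the family of its induced densities. -/
def Limit : Type := {φ : Functional // ∃ W : Graphon, dens W = φ}

/-- `ψ` is a sub-object of `φ`: it is represented by `W|_f` for some `W` representing `φ`. -/
def SubObj (ψ φ : Limit) : Prop :=
  ∃ (W : Graphon) (f : I → ℝ), dens W = φ.1 ∧ Measurable f ∧ (∀ t, 0 ≤ f t ∧ f t ≤ 1) ∧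
    0 < ∫ t : I, f t ∧ subDens W f = ψ.1

/-- `Q(φ)`: the finite graphs of positive density. -/
def Q (φ : Limit) : Set (Σ n : ℕ, SimpleGraph (Fin n)) := {H | 0 < φ.1 H.1 H.2}

/-- `P(φ)`: the finite graphs of positive density in every sub-object. -/
def P (φ : Limit) : Set (Σ n : ℕ, SimpleGraph (Fin n)) := {H | ∀ ψ : Limit, SubObj ψ φ → H ∈ Q ψ}

/-- The class of finite cographs (with the empty graph). -/
def Cographs : Set (Σ n : ℕ, SimpleGraph (Fin n)) := {H | Cog H.2 Set.univ}

/-- `Φ_F` for `F` the class of cographs. -/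
def PhiF : Set Limit := {φ | P φ = Q φ ∧ Q φ = Cographs}

/-! ### Basic facts -/

variable {n N : ℕ}

lemma ind_nonneg (W : Graphon) (H : SimpleGraph (Fin n)) (x : Fin n → I) : 0 ≤ ind W H x := by
  unfold ind
  refine Finset.prod_nonneg fun p _ => ?_
  split_ifs
  · exact W.nonneg _ _
  · linarith [W.le_one (x p.1) (x p.2)]

lemma ind_le_one (W : Graphon) (H : SimpleGraph (Fin n)) (x : Fin n → I) : ind W H x ≤ 1 := by
  unfold ind
  refine Finset.prod_le_one (fun p _ => ?_) (fun p _ => ?_)
  · split_ifs
    · exact W.nonneg _ _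
    · linarith [W.le_one (x p.1) (x p.2)]
  · split_ifs
    · exact W.le_one _ _
    · linarith [W.nonneg (x p.1) (x p.2)]

lemma measurable_ind (W : Graphon) (H : SimpleGraph (Fin n)) :
    Measurable (fun x : Fin n → I => ind W H x) := by
  unfold ind
  refine Finset.measurable_prod _ fun p _ => ?_
  have h0 : Measurable (fun x : Fin n → I => (x p.1, x p.2)) :=
    (measurable_pi_apply p.1).prodMk (measurable_pi_apply p.2)
  have h : Measurable (fun x : Fin n → I => W.toFun (x p.1) (x p.2)) := W.meas.comp h0
  by_cases hp : H.Adj p.1 p.2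
  · simpa [hp] using h
  · simpa [hp] using h.const_sub 1

lemma integrable_of_bdd {f : (Fin n → I) → ℝ} (hf : Measurable f) {C : ℝ}
    (hC : ∀ x, |f x| ≤ C) : Integrable f :=
  Integrable.of_bound hf.aestronglyMeasurable C (Filter.Eventually.of_forall fun x => by
    rw [Real.norm_eq_abs]; exact hC x)

lemma integrable_ind (W : Graphon) (H : SimpleGraph (Fin n)) :
    Integrable (fun x : Fin n → I => ind W H x) :=
  integrable_of_bdd (measurable_ind W H) (C := 1) fun x => by
    rw [abs_of_nonneg (ind_nonneg W H x)]; exact ind_le_one W H x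

lemma measurable_prodf {f : I → ℝ} (hf : Measurable f) :
    Measurable (fun x : Fin n → I => ∏ i, f (x i)) :=
  Finset.measurable_prod _ fun i _ => hf.comp (measurable_pi_apply i)

lemma prodf_bdd {f : I → ℝ} (hf : ∀ t, 0 ≤ f t ∧ f t ≤ 1) (x : Fin n → I) :
    0 ≤ ∏ i, f (x i) ∧ ∏ i, f (x i) ≤ 1 :=
  ⟨Finset.prod_nonneg fun _ _ => (hf _).1, Finset.prod_le_one (fun _ _ => (hf _).1)
    fun _ _ => (hf _).2⟩

lemma integrable_prodf_ind (W : Graphon) (H : SimpleGraph (Fin n)) {f : I → ℝ}
    (hf : Measurable f) (hf' : ∀ t, 0 ≤ f t ∧ f t ≤ 1) :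
    Integrable (fun x : Fin n → I => (∏ i, f (x i)) * ind W H x) :=
  integrable_of_bdd ((measurable_prodf hf).mul (measurable_ind W H)) (C := 1) fun x => by
    rw [abs_of_nonneg (mul_nonneg (prodf_bdd hf' x).1 (ind_nonneg W H x))]
    exact mul_le_one₀ (prodf_bdd hf' x).2 (ind_nonneg W H x) (ind_le_one W H x)

lemma subObj_refl (φ : Limit) : SubObj φ φ := by
  obtain ⟨W, hW⟩ := φ.2
  refine ⟨W, fun _ => 1, hW, measurable_const, fun t => ⟨zero_le_one, le_refl _⟩, ?_, ?_⟩
  · simp
  · rw [← hW]
    funext n H
    simp [subDens, dens]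

/-- Domination: densities of a sub-object are at most exponentially larger. -/
lemma subObj_dom {ψ φ : Limit} (h : SubObj ψ φ) :
    ∃ C : ℝ, 1 ≤ C ∧ ∀ (n : ℕ) (H : SimpleGraph (Fin n)), ψ.1 n H ≤ C ^ n * φ.1 n H := by
  obtain ⟨W, f, hW, hf, hf', hpos, hψ⟩ := h
  set δ : ℝ := ∫ t : I, f t with hδ
  have hδ1 : δ ≤ 1 := by
    have h1 : δ ≤ ∫ _ : I, (1 : ℝ) := by
      refine integral_mono (Integrable.of_bound hf.aestronglyMeasurable 1
        (Filter.Eventually.of_forall fun x => by
          rw [Real.norm_eq_abs, abs_of_nonneg (hf' x).1]; exact (hf' x).2)) (integrable_const _)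
        (fun t => (hf' t).2)
    simpa using h1
  refine ⟨δ⁻¹, (one_le_inv₀ hpos).2 hδ1, fun n H => ?_⟩
  rw [← hψ, ← hW]
  simp only [subDens, dens]
  rw [← hδ, div_eq_inv_mul, inv_pow]
  refine mul_le_mul_of_nonneg_left ?_ (by positivity)
  refine integral_mono (integrable_prodf_ind W H hf hf') (integrable_ind W H) fun x => ?_
  have := mul_le_mul_of_nonneg_right (prodf_bdd hf' x).2 (ind_nonneg W H x)
  simpa using this

/-- Composition with an injection preserves the product measure. -/
lemma mp_comp (e : Fin n → Fin N) (he : Function.Injective e) :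
    MeasurePreserving (fun (x : Fin N → I) (i : Fin n) => x (e i)) volume volume := by
  classical
  have hm : Measurable (fun (x : Fin N → I) (i : Fin n) => x (e i)) :=
    measurable_pi_lambda _ fun i => measurable_pi_apply (e i)
  refine ⟨hm, ?_⟩
  symm
  rw [volume_pi, volume_pi]
  refine Measure.pi_eq fun s hs => ?_
  rw [Measure.map_apply hm (MeasurableSet.univ_pi hs)]
  have hpre : (fun (x : Fin N → I) (i : Fin n) => x (e i)) ⁻¹' (Set.univ.pi s) =
      Set.univ.pi (fun j => if h : ∃ i, e i = j then s h.choose else Set.univ) := by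
    ext x
    simp only [Set.mem_preimage, Set.mem_univ_pi]
    constructor
    · intro h j
      by_cases hj : ∃ i, e i = j
      · rw [dif_pos hj]
        have := h hj.choose
        rwa [hj.choose_spec] at this
      · rw [dif_neg hj]; trivial
    · intro h i
      have hj : ∃ i', e i' = e i := ⟨i, rfl⟩
      have := h (e i)
      rw [dif_pos hj] at this
      rwa [he hj.choose_spec] at this
  rw [hpre, Measure.pi_pi]
  rw [← Finset.prod_subset (Finset.subset_univ (Finset.univ.image e))]
  · rw [Finset.prod_image (fun i _ j _ h => he h)]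
    refine Finset.prod_congr rfl fun i _ => ?_
    have hj : ∃ i', e i' = e i := ⟨i, rfl⟩
    rw [dif_pos hj, he hj.choose_spec]
  · intro j _ hj
    have : ¬ ∃ i, e i = j := by
      rintro ⟨i, rfl⟩
      exact hj (Finset.mem_image_of_mem e (Finset.mem_univ i))
    rw [dif_neg this]
    simp

/-- The pairs `i < j`. -/
def prs (N : ℕ) : Finset (Fin N × Fin N) :=
  (Finset.univ : Finset (Fin N × Fin N)).filter (fun p => p.1 < p.2)

/-- The graph with edge set `t`. -/
def gr (t : Finset (Fin N × Fin N)) : SimpleGraph (Fin N) :=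
  SimpleGraph.fromRel (fun i j => (i, j) ∈ t)

lemma gr_adj {t : Finset (Fin N × Fin N)} (ht : t ⊆ prs N) {p : Fin N × Fin N}
    (hp : p ∈ prs N) : (gr t).Adj p.1 p.2 ↔ p ∈ t := by
  have hlt : p.1 < p.2 := by simpa [prs] using hp
  simp only [gr, SimpleGraph.fromRel_adj]
  constructor
  · rintro ⟨-, h | h⟩
    · exact h
    · have := ht h
      simp only [prs, Finset.mem_filter, Finset.mem_univ, true_and] at this
      exact absurd this (not_lt_of_gt hlt)
  · intro h
    exact ⟨ne_of_lt hlt, Or.inl h⟩

lemma sum_ind (W : Graphon) (x : Fin N → I) :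
    ∑ t ∈ (prs N).powerset, ind W (gr t) x = 1 := by
  classical
  have h1 : ∏ p ∈ prs N, (W.toFun (x p.1) (x p.2) + (1 - W.toFun (x p.1) (x p.2))) = 1 := by
    refine Finset.prod_eq_one fun p _ => by ring
  rw [Finset.prod_add] at h1
  rw [← h1]
  refine Finset.sum_congr rfl fun t ht => ?_
  rw [Finset.mem_powerset] at ht
  unfold ind
  rw [show (Finset.univ : Finset (Fin N × Fin N)).filter (fun p => p.1 < p.2) = prs N from rfl]
  rw [← Finset.prod_sdiff ht, mul_comm]
  congr 1
  · refine Finset.prod_congr rfl fun p hp => ?_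
    rw [if_pos ((gr_adj ht (ht hp)).2 hp)]
  · refine Finset.prod_congr rfl fun p hp => ?_
    rw [Finset.mem_sdiff] at hp
    rw [if_neg (fun h => hp.2 ((gr_adj ht hp.1).1 h))]

/-- `H` does not embed into `Γ[K]`. -/
def Free (H : SimpleGraph (Fin n)) (Γ : SimpleGraph (Fin N)) (K : Finset (Fin N)) : Prop :=
  ¬ ∃ e : Fin n → Fin N, (∀ i, e i ∈ K) ∧
    ∀ i j, i ≠ j → e i ≠ e j ∧ (Γ.Adj (e i) (e j) ↔ H.Adj i j)

open Classical in
/-- Largest size of an `H`-free vertex set. -/
noncomputable def alph (H : SimpleGraph (Fin n)) (Γ : SimpleGraph (Fin N)) : ℕ :=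
  ((Finset.univ : Finset (Finset (Fin N))).filter (fun K => Free H Γ K)).sup Finset.card

lemma le_alph {H : SimpleGraph (Fin n)} {Γ : SimpleGraph (Fin N)} {K : Finset (Fin N)}
    (h : Free H Γ K) : K.card ≤ alph H Γ := by
  classical
  unfold alph
  exact Finset.le_sup (f := Finset.card) (by simp [h])

lemma alph_le {H : SimpleGraph (Fin n)} {Γ : SimpleGraph (Fin N)} {c : ℝ} (hc : 0 ≤ c)
    (h : ∀ K, Free H Γ K → (K.card : ℝ) ≤ c) : (alph H Γ : ℝ) ≤ c := by
  classical
  unfold alph
  have h1 : ((Finset.univ : Finset (Finset (Fin N))).filter (fun K => Free H Γ K)).sup Finset.card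
      ≤ ⌊c⌋₊ := by
    refine Finset.sup_le fun K hK => ?_
    rw [Finset.mem_filter] at hK
    exact Nat.le_floor (h K hK.2)
  exact (Nat.cast_le.2 h1).trans (Nat.floor_le hc)

lemma factor_ne_zero {W : Graphon} {Γ : SimpleGraph (Fin N)} {x : Fin N → I}
    (h : ind W Γ x ≠ 0) {i j : Fin N} (hij : i ≠ j) :
    (Γ.Adj i j → W.toFun (x i) (x j) ≠ 0) ∧ (¬ Γ.Adj i j → 1 - W.toFun (x i) (x j) ≠ 0) := by
  classical
  unfold ind at h
  rw [Finset.prod_ne_zero_iff] at h
  rcases lt_or_gt_of_ne hij with hlt | hlt
  · have := h (i, j) (by simp [hlt])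
    constructor
    · intro ha; simpa [ha] using this
    · intro ha; simpa [ha] using this
  · have := h (j, i) (by simp [hlt])
    rw [Γ.adj_comm, W.symm (x i) (x j)]
    constructor
    · intro ha; simpa [ha] using this
    · intro ha; simpa [ha] using this

/-- Main inequality for sub-objects with vanishing density of `H`. -/
theorem count_ineq (W : Graphon) (f : I → ℝ) (hf : Measurable f) (hf' : ∀ t, 0 ≤ f t ∧ f t ≤ 1)
    (H : SimpleGraph (Fin n)) (h0 : ∫ x : Fin n → I, (∏ i, f (x i)) * ind W H x = 0) (N : ℕ) :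
    (N : ℝ) * ∫ t : I, f t ≤ ∑ t ∈ (prs N).powerset, (alph H (gr t) : ℝ) * dens W N (gr t) := by
  classical
  -- almost everywhere vanishing
  have hae0 : (fun x : Fin n → I => (∏ i, f (x i)) * ind W H x) =ᵐ[volume] 0 := by
    rw [← integral_eq_zero_iff_of_nonneg (fun x => mul_nonneg (prodf_bdd hf' x).1
      (ind_nonneg W H x)) (integrable_prodf_ind W H hf hf')]
    exact h0
  have hae : ∀ᵐ x : Fin N → I, ∀ e : Fin n → Fin N, Function.Injective e →
      (∏ i, f (x (e i))) * ind W H (fun i => x (e i)) = 0 := by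
    rw [ae_all_iff]
    intro e
    by_cases he : Function.Injective e
    · have := (mp_comp (N := N) e he).quasiMeasurePreserving.ae hae0
      filter_upwards [this] with x hx _
      simpa using hx
    · exact Filter.Eventually.of_forall fun x h => absurd h he
  have hfint : ∀ i : Fin N, Integrable (fun x : Fin N → I => f (x i)) := fun i =>
    integrable_of_bdd (hf.comp (measurable_pi_apply i)) (C := 1) fun x => by
      rw [abs_of_nonneg (hf' _).1]; exact (hf' _).2
  have hint1 : ∀ i : Fin N, ∫ x : Fin N → I, f (x i) = ∫ t : I, f t := by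
    intro i
    have hmp : MeasurePreserving (fun x : Fin N → I => x i) volume volume :=
      measurePreserving_eval (fun _ => (volume : Measure I)) i
    have h1 := integral_map (μ := (volume : Measure (Fin N → I))) (φ := fun x : Fin N → I => x i)
      (f := f) hmp.measurable.aemeasurable hf.aestronglyMeasurable
    rw [hmp.map_eq] at h1
    exact h1.symm
  have hpt : ∀ᵐ x : Fin N → I, (∑ i, f (x i)) ≤
      ∑ t ∈ (prs N).powerset, (alph H (gr t) : ℝ) * ind W (gr t) x := by
    filter_upwards [hae] with x hx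
    have hstep : ∀ t ∈ (prs N).powerset, (∑ i, f (x i)) * ind W (gr t) x ≤
        (alph H (gr t) : ℝ) * ind W (gr t) x := by
      intro t _
      by_cases hz : ind W (gr t) x = 0
      · rw [hz]; simp
      · refine mul_le_mul_of_nonneg_right ?_ (ind_nonneg _ _ _)
        set K : Finset (Fin N) := Finset.univ.filter (fun i => 0 < f (x i)) with hK
        have h1 : (∑ i, f (x i)) ≤ (K.card : ℝ) := by
          rw [← Finset.sum_filter_add_sum_filter_not Finset.univ (fun i => 0 < f (x i))]
          have h2 : ∑ i ∈ Finset.univ.filter (fun i => ¬ 0 < f (x i)), f (x i) = 0 := by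
            refine Finset.sum_eq_zero fun i hi => ?_
            simp only [Finset.mem_filter, Finset.mem_univ, true_and, not_lt] at hi
            exact le_antisymm hi (hf' _).1
          rw [h2, add_zero, hK, Finset.card_eq_sum_ones]
          push_cast
          exact Finset.sum_le_sum fun i _ => (hf' _).2
        have hfree : Free H (gr t) K := by
          rintro ⟨e, he1, he2⟩
          have hinj : Function.Injective e := by
            intro i j hij
            by_contra hne
            exact (he2 i j hne).1 hij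
          have hzero := hx e hinj
          have hpos : 0 < ∏ i, f (x (e i)) := by
            refine Finset.prod_pos fun i _ => ?_
            have := he1 i
            simpa [hK] using this
          have hne : ind W H (fun i => x (e i)) ≠ 0 := by
            unfold ind
            rw [Finset.prod_ne_zero_iff]
            intro p hp
            have hlt : p.1 < p.2 := by simpa using hp
            have hpne : p.1 ≠ p.2 := ne_of_lt hlt
            have hfac := factor_ne_zero hz (he2 p.1 p.2 hpne).1
            split_ifs with hadj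
            · exact hfac.1 ((he2 p.1 p.2 hpne).2.2 hadj)
            · exact hfac.2 (fun h => hadj ((he2 p.1 p.2 hpne).2.1 h))
          rcases mul_eq_zero.1 hzero with h | h
          · exact absurd h hpos.ne'
          · exact hne h
        exact h1.trans (by exact_mod_cast le_alph hfree)
    calc (∑ i, f (x i)) = (∑ i, f (x i)) * ∑ t ∈ (prs N).powerset, ind W (gr t) x := by
          rw [sum_ind, mul_one]
      _ = ∑ t ∈ (prs N).powerset, (∑ i, f (x i)) * ind W (gr t) x := by rw [Finset.mul_sum]
      _ ≤ _ := Finset.sum_le_sum hstep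
  have hL : ∫ x : Fin N → I, (∑ i, f (x i)) = (N : ℝ) * ∫ t : I, f t := by
    rw [integral_finsetSum _ (fun i _ => hfint i)]
    simp [hint1]
  have hR : ∫ x : Fin N → I, ∑ t ∈ (prs N).powerset, (alph H (gr t) : ℝ) * ind W (gr t) x =
      ∑ t ∈ (prs N).powerset, (alph H (gr t) : ℝ) * dens W N (gr t) := by
    rw [integral_finsetSum _ (fun t _ => (integrable_ind W (gr t)).const_mul _)]
    refine Finset.sum_congr rfl fun t _ => ?_
    rw [integral_const_mul]
    rfl
  rw [← hL, ← hR]
  exact integral_mono_ae (integrable_finsetSum _ fun i _ => hfint i)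
    (integrable_finsetSum _ fun t _ => (integrable_ind W (gr t)).const_mul _) hpt

end Pool.Agent.V1137.Cogr
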