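import Mathlib

/-!
# Words over `Fin a × Fin b` with the recursive blow-up adjacency

`C = K_a[\bar K_b]` is the complete `a`-partite graph with parts of size `b`.  Points of the
recursive blow-up are sequences of letters in `Fin a × Fin b`; two sequences are adjacent iff at the
first index where they differ the letters lie in different parts.
-/

namespace Pool.Agent.V1137.Cogr

/-- Letters: (part, position in the part). -/
abbrev V (a b : ℕ) : Type := Fin a × Fin b

/-- Adjacency of infinite sequences: at the first difference the parts differ. -/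
def AdjX {a b : ℕ} (x y : ℕ → V a b) : Prop :=
  ∃ i, (∀ j < i, x j = y j) ∧ (x i).1 ≠ (y i).1

/-- Words of length `t`. -/
abbrev Wd (a b t : ℕ) : Type := Fin t → V a b

/-- Adjacency of words. -/
def AdjW {a b t : ℕ} (w w' : Wd a b t) : Prop :=
  ∃ i : Fin t, (∀ j < i, w j = w' j) ∧ (w i).1 ≠ (w' i).1

/-- First `t` letters. -/
def word {a b : ℕ} (t : ℕ) (x : ℕ → V a b) : Wd a b t := fun i => x i

variable {a b : ℕ}

lemma adjX_symm {x y : ℕ → V a b} (h : AdjX x y) : AdjX y x := by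
  obtain ⟨i, h1, h2⟩ := h
  exact ⟨i, fun j hj => (h1 j hj).symm, h2.symm⟩

lemma adjX_comm (x y : ℕ → V a b) : AdjX x y ↔ AdjX y x := ⟨adjX_symm, adjX_symm⟩

lemma adjX_irrefl (x : ℕ → V a b) : ¬ AdjX x x := by
  rintro ⟨i, -, h⟩; exact h rfl

lemma adjX_iff_word {t : ℕ} {x y : ℕ → V a b} (h : word t x ≠ word t y) :
    AdjX x y ↔ AdjW (word t x) (word t y) := by
  obtain ⟨k, hk⟩ : ∃ k : Fin t, x k ≠ y k := by
    by_contra hcon
    push Not at hcon
    exact h (funext fun i => hcon i)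
  constructor
  · rintro ⟨i, h1, h2⟩
    have hik : i ≤ k := by
      by_contra hlt
      push Not at hlt
      exact hk (h1 k hlt)
    have hit : i < t := lt_of_le_of_lt hik k.2
    exact ⟨⟨i, hit⟩, fun j hj => h1 j hj, h2⟩
  · rintro ⟨i, h1, h2⟩
    exact ⟨i, fun j hj => h1 ⟨j, lt_trans hj i.2⟩ hj, h2⟩

lemma adjX_of_word {t : ℕ} {x y : ℕ → V a b} (h : AdjW (word t x) (word t y)) : AdjX x y := by
  obtain ⟨i, h1, h2⟩ := h
  exact ⟨i, fun j hj => h1 ⟨j, lt_trans hj i.2⟩ hj, h2⟩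

/-- part word -/
def pw {t : ℕ} (w : Wd a b t) : Fin t → Fin a := fun i => (w i).1
/-- letter word -/
def lw {t : ℕ} (w : Wd a b t) : Fin t → Fin b := fun i => (w i).2

lemma pw_lw_inj {t : ℕ} {w w' : Wd a b t} (h1 : pw w = pw w') (h2 : lw w = lw w') : w = w' :=
  funext fun i => Prod.ext (congrFun h1 i) (congrFun h2 i)

lemma pw_ne_of_adj {t : ℕ} {w w' : Wd a b t} (h : AdjW w w') : pw w ≠ pw w' := by
  obtain ⟨i, -, h2⟩ := h
  intro e
  exact h2 (congrFun e i)

lemma adjW_or_lw_ne {t : ℕ} {w w' : Wd a b t} (hne : w ≠ w') (h : ¬ AdjW w w') : lw w ≠ lw w' := by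
  classical
  have hex : ∃ k : ℕ, ∃ hk : k < t, w ⟨k, hk⟩ ≠ w' ⟨k, hk⟩ := by
    by_contra hcon
    push Not at hcon
    exact hne (funext fun i => hcon i i.2)
  obtain ⟨hk, hk'⟩ := Nat.find_spec hex
  have hmin : ∀ j : Fin t, j < ⟨Nat.find hex, hk⟩ → w j = w' j := by
    intro j hj
    by_contra hne'
    exact Nat.find_min hex (m := j) hj ⟨j.2, hne'⟩
  intro e
  apply hk'
  have e2 : (w ⟨Nat.find hex, hk⟩).2 = (w' ⟨Nat.find hex, hk⟩).2 := congrFun e _
  by_cases e1 : (w ⟨Nat.find hex, hk⟩).1 = (w' ⟨Nat.find hex, hk⟩).1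
  · exact Prod.ext e1 e2
  · exact absurd ⟨⟨Nat.find hex, hk⟩, hmin, e1⟩ h

lemma adjW_of_lw_eq {t : ℕ} {w w' : Wd a b t} (hne : w ≠ w') (h : lw w = lw w') : AdjW w w' := by
  by_contra hcon
  exact adjW_or_lw_ne hne hcon h

lemma not_adjW_of_pw_eq {t : ℕ} {w w' : Wd a b t} (h : pw w = pw w') : ¬ AdjW w w' := by
  intro hadj
  exact pw_ne_of_adj hadj h

lemma adjW_cons_same {t : ℕ} (v : V a b) (w w' : Wd a b t) :
    AdjW (Fin.cons v w : Wd a b (t + 1)) (Fin.cons v w') ↔ AdjW w w' := by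
  constructor
  · rintro ⟨i, h1, h2⟩
    rcases Fin.eq_zero_or_eq_succ i with rfl | ⟨i, rfl⟩
    · simp at h2
    · refine ⟨i, fun j hj => ?_, by simpa using h2⟩
      have := h1 j.succ (Fin.succ_lt_succ_iff.2 hj)
      simpa using this
  · rintro ⟨i, h1, h2⟩
    refine ⟨i.succ, fun j hj => ?_, by simpa using h2⟩
    rcases Fin.eq_zero_or_eq_succ j with rfl | ⟨j, rfl⟩
    · simp
    · simpa using h1 j (Fin.succ_lt_succ_iff.1 hj)

lemma adjW_cons_ne {t : ℕ} {v v' : V a b} (hne : v ≠ v') (w w' : Wd a b t) :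
    AdjW (Fin.cons v w : Wd a b (t + 1)) (Fin.cons v' w') ↔ v.1 ≠ v'.1 := by
  constructor
  · rintro ⟨i, h1, h2⟩
    rcases Fin.eq_zero_or_eq_succ i with rfl | ⟨i, rfl⟩
    · simpa using h2
    · exact absurd (by simpa using h1 0 (Fin.succ_pos i)) hne
  · intro h
    exact ⟨0, fun j hj => absurd hj (Fin.not_lt_zero j), by simpa using h⟩

lemma cons_inj {t : ℕ} {v : V a b} {w w' : Wd a b t}
    (h : (Fin.cons v w : Wd a b (t + 1)) = Fin.cons v w') : w = w' := by
  funext i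
  have := congrFun h i.succ
  simpa using this

/-- Counting tuples of pairs whose first components determine the pair. -/
lemma card_tuples_le {A B : Type} [Fintype A] [Fintype B] [Nonempty B] (n : ℕ)
    (T : Finset (Fin n → A × B))
    (h : ∀ w ∈ T, ∀ i j, (w i).1 = (w j).1 → w i = w j) :
    T.card ≤ Fintype.card B ^ Fintype.card A * Fintype.card A ^ n := by
  classical
  have e : Fintype.card B ^ Fintype.card A * Fintype.card A ^ n =
      Fintype.card ((A → B) × (Fin n → A)) := by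
    simp
  rw [e, ← Finset.card_univ]
  let G : (Fin n → A × B) → A → B := fun w p =>
    if hp : ∃ i, (w i).1 = p then (w hp.choose).2 else Classical.arbitrary B
  refine Finset.card_le_card_of_injOn (fun w => (G w, fun i => (w i).1)) (by simp) ?_
  intro w hw w' hw' hww
  simp only [Prod.mk.injEq] at hww
  obtain ⟨h1, h2⟩ := hww
  have key : ∀ u ∈ T, ∀ i, G u (u i).1 = (u i).2 := by
    intro u hu i
    have hp : ∃ k, (u k).1 = (u i).1 := ⟨i, rfl⟩
    simp only [G]
    rw [dif_pos hp]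
    rw [h u hu _ _ hp.choose_spec]
  funext i
  have e1 : (w i).1 = (w' i).1 := congrFun h2 i
  refine Prod.ext e1 ?_
  rw [← key w hw i, ← key w' hw' i, h1, e1]

/-- The subset `A` of vertices of `G` induces a cograph: it is obtained from the empty set and
single vertices by disjoint unions without edges in between and disjoint unions with all edges in
between. -/
inductive Cog {ι : Type} (G : SimpleGraph ι) : Set ι → Prop
  | empty : Cog G ∅
  | single (v : ι) : Cog G {v}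
  | union {A B : Set ι} (hA : Cog G A) (hB : Cog G B)
      (h : ∀ u ∈ A, ∀ v ∈ B, u ≠ v ∧ ¬ G.Adj u v) : Cog G (A ∪ B)
  | join {A B : Set ι} (hA : Cog G A) (hB : Cog G B)
      (h : ∀ u ∈ A, ∀ v ∈ B, G.Adj u v) : Cog G (A ∪ B)

/-- `G[A]` embeds into the set `S` of words. -/
def Emb {ι : Type} (G : SimpleGraph ι) (A : Set ι) {t : ℕ} (S : Set (Wd a b t)) : Prop :=
  ∃ e : ι → Wd a b t, (∀ i ∈ A, e i ∈ S) ∧
    ∀ i ∈ A, ∀ j ∈ A, i ≠ j → e i ≠ e j ∧ (AdjW (e i) (e j) ↔ G.Adj i j)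

lemma card_fiber {t : ℕ} (S : Finset (Wd a b (t + 1))) :
    S.card = ∑ v : V a b, ((Finset.univ : Finset (Wd a b t)).filter
      (fun w => (Fin.cons v w : Wd a b (t + 1)) ∈ S)).card := by
  classical
  have h1 : S.card = ∑ v : V a b, (S.filter (fun w => w 0 = v)).card :=
    Finset.card_eq_sum_card_fiberwise (fun w _ => Finset.mem_univ _)
  rw [h1]
  refine Finset.sum_congr rfl fun v _ => ?_
  refine (Finset.card_bij (fun w _ => (Fin.cons v w : Wd a b (t + 1))) ?_ ?_ ?_).symm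
  · intro w hw
    simp only [Finset.mem_filter, Finset.mem_univ, true_and] at hw
    simp [hw]
  · intro w _ w' _ h
    exact cons_inj h
  · intro w hw
    simp only [Finset.mem_filter] at hw
    refine ⟨Fin.tail w, ?_, ?_⟩
    · simp only [Finset.mem_filter, Finset.mem_univ, true_and]
      rw [← hw.2, Fin.cons_self_tail]; exact hw.1
    · rw [← hw.2]; exact Fin.cons_self_tail w

/-- Step: combine embeddings. -/
lemma emb_combine {ι : Type} {G : SimpleGraph ι} {A B : Set ι} {t : ℕ} {S : Set (Wd a b (t + 1))}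
    {u v : V a b} (huv : u ≠ v)
    (h : ∀ i ∈ A, ∀ j ∈ B, i ≠ j ∧ (u.1 ≠ v.1 ↔ G.Adj i j))
    (hA : Emb G A {w | (Fin.cons u w : Wd a b (t + 1)) ∈ S})
    (hB : Emb G B {w | (Fin.cons v w : Wd a b (t + 1)) ∈ S}) : Emb G (A ∪ B) S := by
  classical
  obtain ⟨e, he1, he2⟩ := hA
  obtain ⟨f, hf1, hf2⟩ := hB
  have hd : ∀ j ∈ B, j ∉ A := fun j hj hjA => (h j hjA j hj).1 rfl
  refine ⟨fun i => if i ∈ A then Fin.cons u (e i) else Fin.cons v (f i), ?_, ?_⟩
  · rintro i (hi | hi)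
    · simp only [hi, if_true]; exact he1 i hi
    · simp only [hd i hi, if_false]; exact hf1 i hi
  · have hcons : ∀ (c : V a b) (w w' : Wd a b t), w ≠ w' →
        (Fin.cons c w : Wd a b (t + 1)) ≠ Fin.cons c w' := fun c w w' hne he =>
      hne (cons_inj he)
    have hcons' : ∀ (w w' : Wd a b t),
        (Fin.cons u w : Wd a b (t + 1)) ≠ Fin.cons v w' := by
      intro w w' he
      have := congrFun he 0
      simp at this
      exact huv this
    rintro i (hi | hi) j (hj | hj) hij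
    · simp only [hi, hj, if_true]
      exact ⟨hcons _ _ _ (he2 i hi j hj hij).1, by rw [adjW_cons_same]; exact (he2 i hi j hj hij).2⟩
    · simp only [hi, hd j hj, if_true, if_false]
      exact ⟨hcons' _ _, by rw [adjW_cons_ne huv]; exact (h i hi j hj).2⟩
    · simp only [hd i hi, hj, if_true, if_false]
      refine ⟨(hcons' _ _).symm, ?_⟩
      rw [adjW_cons_ne huv.symm, G.adj_comm, ← (h j hj i hi).2]
      exact ne_comm
    · simp only [hd i hi, hd j hj, if_false]
      exact ⟨hcons _ _ _ (hf2 i hi j hj hij).1, by rw [adjW_cons_same]; exact (hf2 i hi j hj hij).2⟩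

/-- The key recursion. -/
lemma small_step {ι : Type} {G : SimpleGraph ι} {A B : Set ι} {u v : V a b} (huv : u ≠ v)
    (h : ∀ i ∈ A, ∀ j ∈ B, i ≠ j ∧ (u.1 ≠ v.1 ↔ G.Adj i j)) (ε : ℝ) (hε : 0 ≤ ε) (T : ℕ)
    (hA : ∀ t, T ≤ t → ∀ S : Finset (Wd a b t), ¬ Emb G A (S : Set (Wd a b t)) →
      (S.card : ℝ) ≤ ε * ((a * b : ℕ) : ℝ) ^ t)
    (hB : ∀ t, T ≤ t → ∀ S : Finset (Wd a b t), ¬ Emb G B (S : Set (Wd a b t)) →
      (S.card : ℝ) ≤ ε * ((a * b : ℕ) : ℝ) ^ t) (k : ℕ) :
    ∀ S : Finset (Wd a b (T + k)), ¬ Emb G (A ∪ B) (S : Set (Wd a b (T + k))) →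
      (S.card : ℝ) ≤ ((1 - 1 / ((a * b : ℕ) : ℝ)) ^ k + ε) * ((a * b : ℕ) : ℝ) ^ (T + k) := by
  classical
  have hN : (0 : ℝ) < ((a * b : ℕ) : ℝ) := by
    have ha : 0 < a := u.1.pos
    have hb : 0 < b := u.2.pos
    exact_mod_cast Nat.mul_pos ha hb
  have hN1 : (1 : ℝ) ≤ ((a * b : ℕ) : ℝ) := by
    have ha : 0 < a := u.1.pos
    have hb : 0 < b := u.2.pos
    exact_mod_cast Nat.mul_pos ha hb
  set N : ℝ := ((a * b : ℕ) : ℝ) with hNdef
  have hq : 0 ≤ 1 - 1 / N := by
    have : 1 / N ≤ 1 := by rw [div_le_one hN]; exact hN1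
    linarith
  induction k with
  | zero =>
    intro S _
    have h1 : (S.card : ℝ) ≤ N ^ (T + 0) := by
      have h2 : S.card ≤ Fintype.card (Wd a b (T + 0)) := Finset.card_le_univ S
      have h3 : (Fintype.card (Wd a b (T + 0)) : ℝ) = N ^ (T + 0) := by
        simp [hNdef]
      rw [← h3]; exact_mod_cast h2
    have : (0 : ℝ) ≤ N ^ (T + 0) := by positivity
    nlinarith
  | succ k ih =>
    intro S hS
    have hSfree : ∀ c : V a b, ¬ Emb G (A ∪ B)
        ((((Finset.univ : Finset (Wd a b (T + k))).filter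
          (fun w => (Fin.cons c w : Wd a b (T + k + 1)) ∈ S) : Finset (Wd a b (T + k)))) :
          Set (Wd a b (T + k))) := by
      rintro c ⟨e, he1, he2⟩
      apply hS
      refine ⟨fun i => Fin.cons c (e i), fun i hi => ?_, fun i hi j hj hij => ⟨?_, ?_⟩⟩
      · have := he1 i hi
        simpa using this
      · exact fun he => (he2 i hi j hj hij).1 (cons_inj he)
      · rw [← (he2 i hi j hj hij).2]
        exact adjW_cons_same c (e i) (e j)
    set F : V a b → Finset (Wd a b (T + k)) := fun c =>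
      (Finset.univ : Finset (Wd a b (T + k))).filter
        (fun w => (Fin.cons c w : Wd a b (T + k + 1)) ∈ S) with hF
    have hall : ∀ c, ((F c).card : ℝ) ≤ ((1 - 1 / N) ^ k + ε) * N ^ (T + k) := fun c =>
      ih (F c) (hSfree c)
    have hone : ∃ c : V a b, ((F c).card : ℝ) ≤ ε * N ^ (T + k) := by
      by_cases hAe : Emb G A ((F u : Finset (Wd a b (T + k))) : Set (Wd a b (T + k)))
      · by_cases hBe : Emb G B ((F v : Finset (Wd a b (T + k))) : Set (Wd a b (T + k)))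
        · exfalso
          apply hS
          refine emb_combine (t := T + k) (S := (S : Set (Wd a b (T + k + 1)))) huv h ?_ ?_
          · simpa [hF] using hAe
          · simpa [hF] using hBe
        · exact ⟨v, hB _ (Nat.le_add_right _ _) _ hBe⟩
      · exact ⟨u, hA _ (Nat.le_add_right _ _) _ hAe⟩
    obtain ⟨c, hc⟩ := hone
    have hcard : (S.card : ℝ) = ∑ d : V a b, ((F d).card : ℝ) := by
      rw [card_fiber (t := T + k) S]
      push_cast
      rfl
    rw [hcard, ← Finset.add_sum_erase _ _ (Finset.mem_univ c)]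
    have h2 : ∑ d ∈ (Finset.univ : Finset (V a b)).erase c, ((F d).card : ℝ) ≤
        (N - 1) * (((1 - 1 / N) ^ k + ε) * N ^ (T + k)) := by
      refine (Finset.sum_le_sum (fun d _ => hall d)).trans ?_
      rw [Finset.sum_const, Finset.card_erase_of_mem (Finset.mem_univ c), nsmul_eq_mul]
      have hcardV : (Finset.univ : Finset (V a b)).card = a * b := by simp
      have h1le : 1 ≤ a * b := Nat.mul_pos u.1.pos u.2.pos
      have hc' : (((Finset.univ : Finset (V a b)).card - 1 : ℕ) : ℝ) = N - 1 := by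
        rw [hcardV, Nat.cast_sub h1le, hNdef]; push_cast; ring
      rw [hc']
    have h3 : N ^ (T + (k + 1)) = N * N ^ (T + k) := by
      rw [show T + (k + 1) = (T + k) + 1 by ring, pow_succ]; ring
    have hgoal : ((1 - 1 / N) ^ (k + 1) + ε) * N ^ (T + (k + 1)) =
        (N - 1) * (((1 - 1 / N) ^ k + ε) * N ^ (T + k)) + ε * N ^ (T + k) := by
      rw [h3, pow_succ]
      have : (1 - 1 / N) * N = N - 1 := by field_simp
      calc ((1 - 1 / N) ^ k * (1 - 1 / N) + ε) * (N * N ^ (T + k))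
          = ((1 - 1 / N) ^ k * ((1 - 1 / N) * N) + ε * N) * N ^ (T + k) := by ring
        _ = _ := by rw [this]; ring
    rw [hgoal]
    linarith

/-- Sets of words avoiding a cograph are small. -/
theorem small_of_cog {ι : Type} {G : SimpleGraph ι} {A : Set ι} (hc : Cog G A) (ha : 2 ≤ a)
    (hb : 2 ≤ b) : ∀ ε : ℝ, 0 < ε → ∃ T : ℕ, ∀ t, T ≤ t → ∀ S : Finset (Wd a b t),
      ¬ Emb G A (S : Set (Wd a b t)) → (S.card : ℝ) ≤ ε * ((a * b : ℕ) : ℝ) ^ t := by
  classical
  have hN1 : (1 : ℝ) < ((a * b : ℕ) : ℝ) := by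
    have : 2 * 2 ≤ a * b := Nat.mul_le_mul ha hb
    have : 1 < a * b := by omega
    exact_mod_cast this
  have comb : ∀ (A B : Set ι) (u v : V a b), u ≠ v →
      (∀ i ∈ A, ∀ j ∈ B, i ≠ j ∧ (u.1 ≠ v.1 ↔ G.Adj i j)) →
      (∀ ε : ℝ, 0 < ε → ∃ T : ℕ, ∀ t, T ≤ t → ∀ S : Finset (Wd a b t),
        ¬ Emb G A (S : Set (Wd a b t)) → (S.card : ℝ) ≤ ε * ((a * b : ℕ) : ℝ) ^ t) →
      (∀ ε : ℝ, 0 < ε → ∃ T : ℕ, ∀ t, T ≤ t → ∀ S : Finset (Wd a b t),
        ¬ Emb G B (S : Set (Wd a b t)) → (S.card : ℝ) ≤ ε * ((a * b : ℕ) : ℝ) ^ t) →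
      ∀ ε : ℝ, 0 < ε → ∃ T : ℕ, ∀ t, T ≤ t → ∀ S : Finset (Wd a b t),
        ¬ Emb G (A ∪ B) (S : Set (Wd a b t)) → (S.card : ℝ) ≤ ε * ((a * b : ℕ) : ℝ) ^ t := by
    intro A B u v huv h hA hB ε hε
    obtain ⟨T1, hT1⟩ := hA (ε / 2) (by linarith)
    obtain ⟨T2, hT2⟩ := hB (ε / 2) (by linarith)
    set q : ℝ := 1 - 1 / ((a * b : ℕ) : ℝ) with hq
    have hq0 : 0 ≤ q := by
      have : 1 / ((a * b : ℕ) : ℝ) ≤ 1 := by
        rw [div_le_one (by linarith)]; exact hN1.le
      rw [hq]; linarith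
    have hq1 : q < 1 := by
      have : 0 < 1 / ((a * b : ℕ) : ℝ) := by positivity
      rw [hq]; linarith
    obtain ⟨k0, hk0⟩ := exists_pow_lt_of_lt_one (show (0 : ℝ) < ε / 2 by linarith) hq1
    refine ⟨max T1 T2 + k0, fun t ht S hS => ?_⟩
    obtain ⟨k, rfl⟩ : ∃ k, t = max T1 T2 + k := ⟨t - max T1 T2, by omega⟩
    have hk : k0 ≤ k := by omega
    have := small_step huv h (ε / 2) (by linarith) (max T1 T2)
      (fun t ht => hT1 t (le_trans (le_max_left _ _) ht))
      (fun t ht => hT2 t (le_trans (le_max_right _ _) ht)) k S hS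
    refine this.trans ?_
    have hqk : q ^ k ≤ ε / 2 := (pow_le_pow_of_le_one hq0 hq1.le hk).trans hk0.le
    have hp : (0 : ℝ) ≤ ((a * b : ℕ) : ℝ) ^ (max T1 T2 + k) := by positivity
    refine mul_le_mul_of_nonneg_right ?_ hp
    rw [← hq]; linarith
  induction hc with
  | empty =>
    intro ε hε
    refine ⟨0, fun t _ S hS => ?_⟩
    exfalso
    apply hS
    refine ⟨fun _ _ => (⟨0, by omega⟩, ⟨0, by omega⟩), by simp, by simp⟩
  | single v =>
    intro ε hε
    refine ⟨0, fun t _ S hS => ?_⟩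
    have : S = ∅ := by
      by_contra hne
      obtain ⟨w, hw⟩ := Finset.nonempty_iff_ne_empty.2 hne
      apply hS
      refine ⟨fun _ => w, fun i _ => hw, ?_⟩
      intro i hi j hj hij
      simp only [Set.mem_singleton_iff] at hi hj
      exact absurd (hi.trans hj.symm) hij
    rw [this]
    simp only [Finset.card_empty, Nat.cast_zero]
    positivity
  | @union A B hA hB h ihA ihB =>
    refine comb A B (⟨0, by omega⟩, ⟨0, by omega⟩) (⟨0, by omega⟩, ⟨1, by omega⟩) ?_ ?_ ihA ihB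
    · intro e
      have := congrArg (fun p : V a b => (p.2 : ℕ)) e
      simp at this
    · intro i hi j hj
      refine ⟨(h i hi j hj).1, ?_⟩
      simp [(h i hi j hj).2]
  | @join A B hA hB h ihA ihB =>
    refine comb A B (⟨0, by omega⟩, ⟨0, by omega⟩) (⟨1, by omega⟩, ⟨0, by omega⟩) ?_ ?_ ihA ihB
    · intro e
      have := congrArg (fun p : V a b => (p.1 : ℕ)) e
      simp at this
    · intro i hi j hj
      refine ⟨(h i hi j hj).ne, ?_⟩
      simp [h i hi j hj]

end Pool.Agent.V1137.Cogr
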